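import Mathlib

set_option autoImplicit false

open MeasureTheory Set Filter Topology

namespace Pool.Agent.W133.RP

/-! ## Convex bodies and symmetric regions -/

section basic

variable {E : Type} [NormedAddCommGroup E] [NormedSpace ℝ E]

/-- convex body. -/
def Body (K : Set E) : Prop := Convex ℝ K ∧ IsCompact K ∧ (interior K).Nonempty

/-- The symmetric region of `K` around `x`, moved to the origin. -/
def MR (K : Set E) (x : E) : Set E := {w | x + w ∈ K ∧ x - w ∈ K}

/-- The symmetric region around `x` blown up by the factor `r` (to be used with `0 < r`). -/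
def MS (K : Set E) (x : E) (r : ℝ) : Set E := {y | r⁻¹ • (y - x) ∈ MR K x}

/-- The part of `K` in a closed half space. -/
def cap (K : Set E) (l : E →L[ℝ] ℝ) (c : ℝ) : Set E := {y | y ∈ K ∧ c ≤ l y}

/-- Convex hull of finitely many points. -/
def hull {n : ℕ} (x : Fin n → E) : Set E := convexHull ℝ (range x)

/-- The points with index in `S` are exactly the points where some linear functional is maximal. -/
def Supp {n : ℕ} (x : Fin n → E) (S : Finset (Fin n)) : Prop :=
  ∃ (l : E →L[ℝ] ℝ) (c : ℝ), (∀ i ∈ S, l (x i) = c) ∧ ∀ i, i ∉ S → l (x i) < c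

/-- general position. -/
def GP {n : ℕ} (x : Fin n → E) : Prop :=
  ∀ S : Finset (Fin n), S.card ≤ Module.finrank ℝ E + 1 → AffineIndependent ℝ (fun i : S => x i)

/-- number of (nonempty exposed) faces of dimension `j`. -/
noncomputable def fj (j : ℕ) (P : Set E) : ℕ :=
  Set.ncard {F : Set E | IsExposed ℝ P F ∧ F.Nonempty ∧ Module.finrank ℝ (vectorSpan ℝ F) = j}

end basic

section meas

variable {E : Type} [NormedAddCommGroup E] [NormedSpace ℝ E] [MeasureSpace E]

/-- volume of the symmetric region. -/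
noncomputable def mu (K : Set E) (x : E) : ℝ := volume.real (MR K x)

/-- volume of the set of points of `K` with small symmetric region. -/
noncomputable def Phi (K : Set E) (t : ℝ) : ℝ := volume.real {y | y ∈ K ∧ mu K y ≤ t}

/-- the floating body: points such that every cap containing them has volume at least `t`. -/
def FL (K : Set E) (t : ℝ) : Set E :=
  {x | x ∈ K ∧ ∀ (l : E →L[ℝ] ℝ) (c : ℝ), c ≤ l x → t ≤ volume.real (cap K l c)}

/-- the uniform distribution on `K`. -/
noncomputable def unif (K : Set E) : Measure E := (volume K)⁻¹ • volume.restrict K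

/-- the law of `n` independent uniform points. -/
noncomputable def PP (K : Set E) (n : ℕ) : Measure (Fin n → E) :=
  Measure.pi (fun _ : Fin n => unif K)

/-- probability that `y` is not in the convex hull of `n` random points. -/
noncomputable def miss (K : Set E) (n : ℕ) (y : E) : ℝ := (PP K n).real {x | y ∉ hull x}

/-- expected volume deficit. -/
noncomputable def vdef (K : Set E) (n : ℕ) : ℝ :=
  volume.real K - ∫ x, volume.real (hull x) ∂(PP K n)

/-- expected number of `j`-dimensional faces. -/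
noncomputable def EF (j : ℕ) (K : Set E) (n : ℕ) : ℝ := ∫ x, (fj j (hull x) : ℝ) ∂(PP K n)

end meas

/-- properties of the rate function. -/
def GOK (G : ℝ → ℝ) : Prop :=
  (∀ t, 0 < t → 0 < G t) ∧ (∀ s t, s ≤ t → G s ≤ G t) ∧
    ∀ r, 1 ≤ r → ∀ t, 0 < t → G (r * t) ≤ r * G t

/-! ## Euclidean bodies -/

/-- every boundary point has an outer touching ball. -/
def TO {k : ℕ} (K : Set (EuclideanSpace ℝ (Fin k))) : Prop :=
  ∀ z ∈ frontier K, ∃ a : EuclideanSpace ℝ (Fin k), ∀ y ∈ K, ‖y - z‖ ^ 2 ≤ inner ℝ a (z - y)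

/-- convex body whose boundary is twice differentiable with positive curvature. -/
def SmoothBody {k : ℕ} (K : Set (EuclideanSpace ℝ (Fin k))) : Prop :=
  Body K ∧ ∀ z ∈ frontier K, ∃ g : EuclideanSpace ℝ (Fin k) → ℝ,
    (∀ᶠ y in 𝓝 z, (y ∈ K ↔ g y ≤ 0)) ∧ (∀ᶠ y in 𝓝 z, DifferentiableAt ℝ g y) ∧
    DifferentiableAt ℝ (fderiv ℝ g) z ∧ fderiv ℝ g z ≠ 0 ∧
    ∀ w, w ≠ 0 → fderiv ℝ g z w = 0 → 0 < fderiv ℝ (fderiv ℝ g) z w w

/-! ## Products -/

/-- the product space. -/
abbrev PE {m : ℕ} (d : Fin m → ℕ) : Type := (i : Fin m) → EuclideanSpace ℝ (Fin (d i))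

/-- the product body. -/
def PB {m : ℕ} {d : Fin m → ℕ} (K : (i : Fin m) → Set (EuclideanSpace ℝ (Fin (d i)))) :
    Set (PE d) := {x | ∀ i, x i ∈ K i}

/-- the product of unit balls. -/
def ZB {m : ℕ} (d : Fin m → ℕ) : Set (PE d) := PB (fun _ => Metric.closedBall 0 1)

/-- the rate function of the product. -/
noncomputable def GG {m : ℕ} (d : Fin m → ℕ) (t : ℝ) : ℝ :=
  volume.real {s : Fin m → ℝ | (∀ i, 0 ≤ s i ∧ s i ≤ 1) ∧
    ∏ i, (s i) ^ (((d i : ℝ) + 1) / 2) ≤ t}

/-- same order of magnitude. -/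
def Asymp (a b : ℕ → ℝ) : Prop :=
  ∃ c C : ℝ, 0 < c ∧ ∃ n₀ : ℕ, ∀ n, n₀ ≤ n → c * b n ≤ a n ∧ a n ≤ C * b n

end Pool.Agent.W133.RP
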