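import Pool.Agent.W133.RP.Defs

set_option autoImplicit false

open MeasureTheory Set Filter Topology

namespace Pool.Agent.W133.RP

/-! ## A. General convex bodies. `d` is the dimension `Module.finrank ℝ E`. -/

/-- MRB: basic facts. -/
def S_MRB : Prop := ∀ (E : Type) [NormedAddCommGroup E] [NormedSpace ℝ E] [FiniteDimensional ℝ E]
  [MeasureSpace E] [BorelSpace E] [(volume : Measure E).IsAddHaarMeasure] (K : Set E), Body K →
  (∀ x, Convex ℝ (MR K x) ∧ IsCompact (MR K x) ∧ ∀ w ∈ MR K x, -w ∈ MR K x) ∧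
  (∀ x ∈ K, (0 : E) ∈ MR K x) ∧ (∀ x, x ∉ K → MR K x = ∅) ∧
  (∀ x ∈ interior K, (0 : E) ∈ interior (MR K x) ∧ 0 < mu K x) ∧
  (∀ x r, 0 < r → IsCompact (MS K x r) ∧ Convex ℝ (MS K x r) ∧
    volume.real (MS K x r) = r ^ Module.finrank ℝ E * mu K x) ∧
  Measurable (mu K) ∧ volume (frontier K) = 0 ∧ 0 < volume.real K ∧ volume K ≠ ⊤ ∧
  (∀ x, mu K x ≤ volume.real K)

/-- HALF: half spaces through the center contain half of the region. -/
def S_HALF : Prop := ∀ (E : Type) [NormedAddCommGroup E] [NormedSpace ℝ E] [FiniteDimensional ℝ E]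
  [MeasureSpace E] [BorelSpace E] [(volume : Measure E).IsAddHaarMeasure] (K : Set E), Body K →
  (∀ (x : E) (l : E →L[ℝ] ℝ) (c : ℝ), c ≤ l x → mu K x ≤ 2 * volume.real (cap K l c)) ∧
  ∀ (x : E) (l : E →L[ℝ] ℝ), mu K x ≤ 2 * volume.real {w | w ∈ MR K x ∧ 0 ≤ l w}

/-- TRANS: translates. -/
def S_TRANS : Prop := ∀ (E : Type) [NormedAddCommGroup E] [NormedSpace ℝ E]
  [FiniteDimensional ℝ E] [MeasureSpace E] [BorelSpace E] [(volume : Measure E).IsAddHaarMeasure]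
  (D S T : Set E) (e : E) (r : ℝ), Convex ℝ D → IsCompact D → Convex ℝ T → IsCompact T →
  Convex ℝ S → (∀ w ∈ S, -w ∈ S) → T ⊆ D → T ⊆ S → (0 : E) ∈ T → e ∈ D → 1 ≤ r →
  r⁻¹ • e ∉ S → r * volume.real T ≤ 2 ^ (Module.finrank ℝ E + 1) * volume.real D

/-- LC: caps of small volume are contained in the blown up region. -/
def S_LC : Prop := ∀ (E : Type) [NormedAddCommGroup E] [NormedSpace ℝ E] [FiniteDimensional ℝ E]
  [MeasureSpace E] [BorelSpace E] [(volume : Measure E).IsAddHaarMeasure] (K : Set E), Body K →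
  ∀ (p : E) (l : E →L[ℝ] ℝ) (c A : ℝ), p ∈ K → c ≤ l p → 0 < A → 0 < mu K p →
  volume.real (cap K l c) ≤ A * mu K p →
  cap K l c ⊆ MS K p (2 ^ (Module.finrank ℝ E + 3) * A)

/-- CAP: through every interior point there is a cap contained in the blown up region. -/
def S_CAP : Prop := ∀ (E : Type) [NormedAddCommGroup E] [NormedSpace ℝ E] [FiniteDimensional ℝ E]
  [MeasureSpace E] [BorelSpace E] [(volume : Measure E).IsAddHaarMeasure] (K : Set E), Body K →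
  ∀ x ∈ interior K, ∃ l : E →L[ℝ] ℝ, cap K l (l x) ⊆ MS K x (Module.finrank ℝ E + 1) ∧
  volume.real (cap K l (l x)) ≤ (Module.finrank ℝ E + 1) ^ (Module.finrank ℝ E) * mu K x

/-- AVG: a point with large symmetric region. -/
def S_AVG : Prop := ∀ (E : Type) [NormedAddCommGroup E] [NormedSpace ℝ E] [FiniteDimensional ℝ E]
  [MeasureSpace E] [BorelSpace E] [(volume : Measure E).IsAddHaarMeasure] (D : Set E),
  Convex ℝ D → IsCompact D → 0 < volume.real D →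
  ∃ x ∈ D, volume.real D ≤ 2 ^ Module.finrank ℝ E * mu D x

/-- DM: a convex body is contained in the blown up symmetric region of one of its points. -/
def S_DM : Prop := ∀ (E : Type) [NormedAddCommGroup E] [NormedSpace ℝ E] [FiniteDimensional ℝ E]
  [MeasureSpace E] [BorelSpace E] [(volume : Measure E).IsAddHaarMeasure] (D : Set E),
  Convex ℝ D → IsCompact D → 0 < volume.real D →
  ∃ x ∈ D, volume.real D ≤ 2 ^ Module.finrank ℝ E * mu D x ∧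
    D ⊆ MS D x (2 ^ (2 * Module.finrank ℝ E + 2))

/-- OV: overlapping regions are comparable. -/
def S_OV : Prop := ∀ (E : Type) [NormedAddCommGroup E] [NormedSpace ℝ E] [FiniteDimensional ℝ E]
  [MeasureSpace E] [BorelSpace E] [(volume : Measure E).IsAddHaarMeasure] (K : Set E), Body K →
  ∀ x y a : E, a ∈ MS K x (1 / 2) → a ∈ MS K y (1 / 2) →
  (∀ r : ℝ, 0 < r → MS K x r ⊆ MS K y (10 * r + 5)) ∧ mu K x ≤ 10 ^ Module.finrank ℝ E * mu K y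

/-- IVT: caps can be enlarged to caps of prescribed volume. -/
def S_IVT : Prop := ∀ (E : Type) [NormedAddCommGroup E] [NormedSpace ℝ E] [FiniteDimensional ℝ E]
  [MeasureSpace E] [BorelSpace E] [(volume : Measure E).IsAddHaarMeasure] (K : Set E), Body K →
  ∀ (l : E →L[ℝ] ℝ) (c t : ℝ), l ≠ 0 → volume.real (cap K l c) ≤ t → t ≤ volume.real K →
  ∃ c' : ℝ, c' ≤ c ∧ volume.real (cap K l c') = t

/-- ECC: economic cap covering. -/
def S_ECC : Prop := ∀ (E : Type) [NormedAddCommGroup E] [NormedSpace ℝ E] [FiniteDimensional ℝ E]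
  [MeasureSpace E] [BorelSpace E] [(volume : Measure E).IsAddHaarMeasure] (K : Set E), Body K →
  ∃ C : ℝ, 1 ≤ C ∧ ∀ t : ℝ, 0 < t → t ≤ volume.real K → ∃ I : Finset E,
    (∀ x ∈ I, x ∈ K ∧ mu K x ≤ 2 * t) ∧ (I.card : ℝ) * t ≤ C * Phi K (C * t) ∧
    ∀ (l : E →L[ℝ] ℝ) (c : ℝ), l ≠ 0 → volume.real (cap K l c) ≤ t →
      ∃ x ∈ I, cap K l c ⊆ MS K x C

/-- AUER: Auerbach basis. -/
def S_AUER : Prop := ∀ (E : Type) [NormedAddCommGroup E] [NormedSpace ℝ E]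
  [FiniteDimensional ℝ E] [MeasureSpace E] [BorelSpace E] [(volume : Measure E).IsAddHaarMeasure]
  (S : Set E), Convex ℝ S → IsCompact S → (∀ w ∈ S, -w ∈ S) → 0 < volume.real S →
  ∃ b : Module.Basis (Fin (Module.finrank ℝ E)) ℝ E, (∀ i, b i ∈ S) ∧
    ∀ w ∈ S, ∀ i, |b.repr w i| ≤ 1

/-! ## B. Upper bound for `Phi`. -/

/-- NET: nets of the sphere. -/
def S_NET : Prop := ∀ (k : ℕ), 1 ≤ k → ∀ R : ℝ, 0 < R → ∃ C : ℝ, 0 < C ∧ ∀ δ : ℝ, 0 < δ → δ ≤ 1 →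
  ∃ Y : Finset (EuclideanSpace ℝ (Fin k)), (Y.card : ℝ) * δ ^ (k - 1) ≤ C ∧
    ∀ q : EuclideanSpace ℝ (Fin k), ‖q‖ = R → ∃ y ∈ Y, ‖q - y‖ ≤ δ

/-- BI: approximation by inscribed polytopes. -/
def S_BI : Prop := ∀ (k : ℕ), 1 ≤ k → ∀ ρ R : ℝ, 0 < ρ → 0 < R → ∃ C : ℝ, 0 < C ∧
  ∀ δ : ℝ, 0 < δ → δ ≤ 1 → ∀ (w : EuclideanSpace ℝ (Fin k)) (L : Set (EuclideanSpace ℝ (Fin k))),
  IsCompact L → Convex ℝ L → Metric.closedBall w ρ ⊆ L → L ⊆ Metric.closedBall w R →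
  ∃ P : Finset (EuclideanSpace ℝ (Fin k)), (∀ p ∈ P, p ∈ L) ∧ (P.card : ℝ) * δ ^ (k - 1) ≤ C ∧
    volume.real (L \ convexHull ℝ (P : Set (EuclideanSpace ℝ (Fin k)))) ≤ C * δ ^ 2

/-- FLO: floating bodies are compact and convex. -/
def S_FLO : Prop := ∀ (E : Type) [NormedAddCommGroup E] [NormedSpace ℝ E] [FiniteDimensional ℝ E]
  [MeasureSpace E] [BorelSpace E] [(volume : Measure E).IsAddHaarMeasure] (K : Set E), Body K →
  ∀ t : ℝ, IsCompact (FL K t) ∧ Convex ℝ (FL K t)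

/-- FLB: floating bodies contain a fixed ball. -/
def S_FLB : Prop := ∀ (E : Type) [NormedAddCommGroup E] [NormedSpace ℝ E] [FiniteDimensional ℝ E]
  [MeasureSpace E] [BorelSpace E] [(volume : Measure E).IsAddHaarMeasure] (K : Set E), Body K →
  ∀ (w : E) (ρ : ℝ), 0 < ρ → Metric.closedBall w (2 * ρ) ⊆ K →
  ∃ t₀ : ℝ, 0 < t₀ ∧ ∀ t : ℝ, t ≤ t₀ → Metric.closedBall w ρ ⊆ FL K t

/-- FLM: points of the floating body have large symmetric region. -/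
def S_FLM : Prop := ∀ (E : Type) [NormedAddCommGroup E] [NormedSpace ℝ E] [FiniteDimensional ℝ E]
  [MeasureSpace E] [BorelSpace E] [(volume : Measure E).IsAddHaarMeasure] (K : Set E), Body K →
  ∀ t : ℝ, 0 < t → ∀ p ∈ FL K t, p ∈ interior K ∧
    t ≤ (Module.finrank ℝ E + 1) ^ (Module.finrank ℝ E) * mu K p

/-- DYAD: volume between two floating bodies. -/
def S_DYAD : Prop := ∀ (k : ℕ), 1 ≤ k → ∀ K : Set (EuclideanSpace ℝ (Fin k)), Body K →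
  ∃ C : ℝ, 0 < C ∧ ∃ t₀ : ℝ, 0 < t₀ ∧ ∀ t : ℝ, 0 < t → t ≤ t₀ →
    volume.real (FL K t \ FL K (2 * t)) ≤ C * t ^ (2 / ((k : ℝ) + 1))

/-- KFL: volume outside the floating body. -/
def S_KFL : Prop := ∀ (k : ℕ), 1 ≤ k → ∀ K : Set (EuclideanSpace ℝ (Fin k)), Body K →
  ∃ C : ℝ, 0 < C ∧ ∃ t₀ : ℝ, 0 < t₀ ∧ ∀ t : ℝ, 0 < t → t ≤ t₀ →
    volume.real (K \ FL K t) ≤ C * t ^ (2 / ((k : ℝ) + 1))

/-- PHIUP: upper bound for `Phi`, every convex body. -/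
def S_PHIUP : Prop := ∀ (k : ℕ), 1 ≤ k → ∀ K : Set (EuclideanSpace ℝ (Fin k)), Body K →
  ∃ C : ℝ, 0 < C ∧ ∀ t : ℝ, 0 < t → Phi K t ≤ C * t ^ (2 / ((k : ℝ) + 1))

/-! ## C. Lower bound for `Phi`. -/

/-- SMTO: smooth bodies with positive curvature have outer touching balls. -/
def S_SMTO : Prop := ∀ (k : ℕ) (K : Set (EuclideanSpace ℝ (Fin k))), SmoothBody K → TO K

/-- BAIRE: a boundary patch with touching balls of bounded radius. -/
def S_BAIRE : Prop := ∀ (k : ℕ), 1 ≤ k → ∀ K : Set (EuclideanSpace ℝ (Fin k)), Body K → TO K →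
  ∃ z₀ ∈ frontier K, ∃ r : ℝ, 0 < r ∧ ∃ R : ℝ, 0 < R ∧ ∀ z ∈ frontier K, ‖z - z₀‖ < r →
    ∃ a : EuclideanSpace ℝ (Fin k), ‖a‖ ≤ R ∧ ∀ y ∈ K, ‖y - z‖ ^ 2 ≤ inner ℝ a (z - y)

/-- CAPV: volume of the caps of a body in a touching ball. -/
def S_CAPV : Prop := ∀ (k : ℕ), 1 ≤ k → ∀ K : Set (EuclideanSpace ℝ (Fin k)), Body K →
  ∃ C : ℝ, 0 < C ∧ ∀ z ∈ K, ∀ a : EuclideanSpace ℝ (Fin k),
    (∀ y ∈ K, ‖y - z‖ ^ 2 ≤ inner ℝ a (z - y)) → ∀ s : ℝ, 0 < s →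
    volume.real {y | y ∈ K ∧ inner ℝ a (z - y) ≤ s} ≤ C * s ^ (((k : ℝ) + 1) / 2)

/-- LAYER: volume of a boundary layer over a patch. -/
def S_LAYER : Prop := ∀ (k : ℕ), 1 ≤ k → ∀ K : Set (EuclideanSpace ℝ (Fin k)), Body K →
  ∀ z₀ ∈ frontier K, ∀ r : ℝ, 0 < r → ∃ c : ℝ, 0 < c ∧ ∃ h₀ : ℝ, 0 < h₀ ∧ ∀ h : ℝ, 0 < h →
    h ≤ h₀ → c * h ≤ volume.real {x | x ∈ K ∧ ∃ z ∈ frontier K, ‖z - z₀‖ < r ∧ ‖x - z‖ ≤ h}

/-- PHILOW: lower bound for `Phi`. -/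
def S_PHILOW : Prop := ∀ (k : ℕ), 1 ≤ k → ∀ K : Set (EuclideanSpace ℝ (Fin k)), Body K → TO K →
  ∃ c : ℝ, 0 < c ∧ ∀ t : ℝ, 0 < t → t ≤ 1 → c * t ^ (2 / ((k : ℝ) + 1)) ≤ Phi K t

/-- BALL: the unit ball. -/
def S_BALL : Prop := ∀ (k : ℕ), 1 ≤ k →
  SmoothBody (Metric.closedBall (0 : EuclideanSpace ℝ (Fin k)) 1)

/-! ## D. Products. -/

/-- MUPI: products of bodies. -/
def S_MUPI : Prop := ∀ (m : ℕ) (d : Fin m → ℕ)
  (K : (i : Fin m) → Set (EuclideanSpace ℝ (Fin (d i)))), (∀ i, Body (K i)) →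
  Body (PB K) ∧ ∀ x : PE d, mu (PB K) x = ∏ i, mu (K i) (x i)

/-- CMP: comparison of the law of a product of independent nonnegative variables. -/
def S_CMP : Prop := ∀ (m : ℕ) (ν κ : Fin m → Measure ℝ) (C : Fin m → ℝ),
  (∀ i, IsFiniteMeasure (ν i)) → (∀ i, IsFiniteMeasure (κ i)) → (∀ i, ν i (Iio 0) = 0) →
  (∀ i, κ i (Iio 0) = 0) → (∀ i, 0 ≤ C i) →
  (∀ i (t : ℝ), (ν i).real (Iic t) ≤ C i * (κ i).real (Iic t)) →
  ∀ t : ℝ, (Measure.pi ν).real {s | ∏ i, s i ≤ t} ≤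
    (∏ i, C i) * (Measure.pi κ).real {s | ∏ i, s i ≤ t}

/-- GCMP: `Phi` of the product body is comparable to `GG d`. -/
def S_GCMP : Prop := ∀ (m : ℕ), 1 ≤ m → ∀ d : Fin m → ℕ, (∀ i, 1 ≤ d i) →
  ∀ K : (i : Fin m) → Set (EuclideanSpace ℝ (Fin (d i))), (∀ i, Body (K i)) →
  (∀ i, ∃ C : ℝ, 0 < C ∧ ∀ t : ℝ, 0 < t → Phi (K i) t ≤ C * t ^ (2 / ((d i : ℝ) + 1))) →
  (∀ i, ∃ c : ℝ, 0 < c ∧ ∀ t : ℝ, 0 < t → t ≤ 1 → c * t ^ (2 / ((d i : ℝ) + 1)) ≤ Phi (K i) t) →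
  (∃ c : ℝ, 0 < c ∧ ∀ t : ℝ, 0 < t → c * GG d t ≤ Phi (PB K) t) ∧
  ∃ C : ℝ, 0 < C ∧ ∀ t : ℝ, 0 < t → Phi (PB K) t ≤ C * GG d t

/-- GLAM: properties of `GG d`. -/
def S_GLAM : Prop := ∀ (m : ℕ), 1 ≤ m → ∀ d : Fin m → ℕ, (∀ i, 1 ≤ d i) → GOK (GG d)

/-! ## R. Random polytopes. -/

/-- UNIF: the uniform distribution. -/
def S_UNIF : Prop := ∀ (E : Type) [NormedAddCommGroup E] [NormedSpace ℝ E] [FiniteDimensional ℝ E]
  [MeasureSpace E] [BorelSpace E] [(volume : Measure E).IsAddHaarMeasure] (K : Set E), Body K →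
  IsProbabilityMeasure (unif K) ∧ (∀ n, IsProbabilityMeasure (PP K n)) ∧
  (∀ A : Set E, MeasurableSet A → (unif K).real A = volume.real (K ∩ A) / volume.real K) ∧
  ∀ n, ∀ᵐ x ∂(PP K n), ∀ i, x i ∈ K

/-- HULL: measurability of the hull. -/
def S_HULL : Prop := ∀ (E : Type) [NormedAddCommGroup E] [NormedSpace ℝ E] [FiniteDimensional ℝ E]
  [MeasureSpace E] [BorelSpace E] [(volume : Measure E).IsAddHaarMeasure] (n : ℕ),
  IsClosed {p : (Fin n → E) × E | p.2 ∈ hull p.1} ∧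
  MeasurableSet {p : (Fin n → E) × E | p.2 ∈ hull p.1} ∧
  Measurable (fun x : Fin n → E => volume (hull x))

/-- MISS1: lower bound for the missing probability. -/
def S_MISS1 : Prop := ∀ (E : Type) [NormedAddCommGroup E] [NormedSpace ℝ E]
  [FiniteDimensional ℝ E] [MeasureSpace E] [BorelSpace E] [(volume : Measure E).IsAddHaarMeasure]
  (K : Set E), Body K → ∀ (n : ℕ), ∀ y ∈ interior K,
  (Module.finrank ℝ E + 1) ^ (Module.finrank ℝ E) * mu K y ≤ volume.real K →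
  (1 - (Module.finrank ℝ E + 1) ^ (Module.finrank ℝ E) * mu K y / volume.real K) ^ n ≤
    miss K n y

/-- MISS2: upper bound for the missing probability. -/
def S_MISS2 : Prop := ∀ (E : Type) [NormedAddCommGroup E] [NormedSpace ℝ E]
  [FiniteDimensional ℝ E] [MeasureSpace E] [BorelSpace E] [(volume : Measure E).IsAddHaarMeasure]
  (K : Set E), Body K → ∀ (n : ℕ), ∀ y ∈ K,
  miss K n y ≤ 2 ^ (Module.finrank ℝ E) * (1 - mu K y /
    ((2 * Module.finrank ℝ E) ^ (Module.finrank ℝ E) * volume.real K)) ^ n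

/-- DEFI: the volume deficit is the integral of the missing probability. -/
def S_DEFI : Prop := ∀ (E : Type) [NormedAddCommGroup E] [NormedSpace ℝ E] [FiniteDimensional ℝ E]
  [MeasureSpace E] [BorelSpace E] [(volume : Measure E).IsAddHaarMeasure] (K : Set E), Body K →
  ∀ n : ℕ, Measurable (miss K n) ∧ (∀ y, 0 ≤ miss K n y ∧ miss K n y ≤ 1) ∧
    Integrable (fun x => volume.real (hull x)) (PP K n) ∧ vdef K n = ∫ y in K, miss K n y

/-- VLOW: lower bound for the volume deficit. -/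
def S_VLOW : Prop := ∀ (E : Type) [NormedAddCommGroup E] [NormedSpace ℝ E] [FiniteDimensional ℝ E]
  [MeasureSpace E] [BorelSpace E] [(volume : Measure E).IsAddHaarMeasure] (K : Set E), Body K →
  ∀ G : ℝ → ℝ, GOK G → (∃ c : ℝ, 0 < c ∧ ∀ t : ℝ, 0 < t → c * G t ≤ Phi K t) →
  ∃ c : ℝ, 0 < c ∧ ∀ n : ℕ, 1 ≤ n → c * G (1 / n) ≤ vdef K n

/-- VUP: upper bound for the volume deficit. -/
def S_VUP : Prop := ∀ (E : Type) [NormedAddCommGroup E] [NormedSpace ℝ E] [FiniteDimensional ℝ E]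
  [MeasureSpace E] [BorelSpace E] [(volume : Measure E).IsAddHaarMeasure] (K : Set E), Body K →
  ∀ G : ℝ → ℝ, GOK G → (∃ C : ℝ, 0 < C ∧ ∀ t : ℝ, 0 < t → Phi K t ≤ C * G t) →
  ∃ C : ℝ, 0 < C ∧ ∀ n : ℕ, 1 ≤ n → vdef K n ≤ C * G (1 / n)

/-- SUPM: measurability of the support events. -/
def S_SUPM : Prop := ∀ (E : Type) [NormedAddCommGroup E] [NormedSpace ℝ E] [FiniteDimensional ℝ E]
  [MeasureSpace E] [BorelSpace E] (n : ℕ) (S : Finset (Fin n)),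
  MeasurableSet {x : Fin n → E | Supp x S}

/-- GPAE: almost sure general position. -/
def S_GPAE : Prop := ∀ (E : Type) [NormedAddCommGroup E] [NormedSpace ℝ E] [FiniteDimensional ℝ E]
  [MeasureSpace E] [BorelSpace E] [(volume : Measure E).IsAddHaarMeasure] (K : Set E), Body K →
  (∀ n : ℕ, ∀ᵐ x ∂(PP K n), GP x) ∧
  ∀ (n : ℕ) (S : Finset (Fin n)), S.card ≤ Module.finrank ℝ E + 1 →
    ∀ᵐ z ∂(Measure.pi (fun _ : S => unif K)), AffineIndependent ℝ z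

/-- EF0: probability that a point is a vertex. -/
def S_EF0 : Prop := ∀ (E : Type) [NormedAddCommGroup E] [NormedSpace ℝ E] [FiniteDimensional ℝ E]
  [MeasureSpace E] [BorelSpace E] [(volume : Measure E).IsAddHaarMeasure] (K : Set E), Body K →
  ∀ (n : ℕ) (i : Fin (n + 1)),
    (PP K (n + 1)).real {x | Supp x {i}} = vdef K n / volume.real K

/-- SPLIT: conditioning on the points of a facet. -/
def S_SPLIT : Prop := ∀ (E : Type) [NormedAddCommGroup E] [NormedSpace ℝ E]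
  [FiniteDimensional ℝ E] [MeasureSpace E] [BorelSpace E] [(volume : Measure E).IsAddHaarMeasure]
  (K : Set E), Body K → 1 ≤ Module.finrank ℝ E → ∀ (n : ℕ) (S : Finset (Fin n)),
  S.card = Module.finrank ℝ E → ∀ A : Set (S → E), MeasurableSet A → ∀ t : ℝ, 0 ≤ t →
  t ≤ volume.real K →
  (∀ z ∈ A, ∀ (l : E →L[ℝ] ℝ) (c : ℝ), l ≠ 0 → (∀ i, c ≤ l (z i)) →
    t ≤ volume.real (cap K l c)) →
  (PP K n).real {x | Supp x S ∧ (fun i : S => x i) ∈ A} ≤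
    2 * (1 - t / volume.real K) ^ (n - Module.finrank ℝ E) *
      (Measure.pi (fun _ : S => unif K)).real A

/-- FACUP: probability that given points span a facet. -/
def S_FACUP : Prop := ∀ (E : Type) [NormedAddCommGroup E] [NormedSpace ℝ E]
  [FiniteDimensional ℝ E] [MeasureSpace E] [BorelSpace E] [(volume : Measure E).IsAddHaarMeasure]
  (K : Set E), Body K → 1 ≤ Module.finrank ℝ E →
  ∀ G : ℝ → ℝ, GOK G → (∃ C : ℝ, 0 < C ∧ ∀ t : ℝ, 0 < t → Phi K t ≤ C * G t) →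
  ∃ C : ℝ, 0 < C ∧ ∀ n : ℕ, Module.finrank ℝ E + 1 ≤ n → ∀ S : Finset (Fin n),
    S.card = Module.finrank ℝ E →
    (n : ℝ) ^ (Module.finrank ℝ E) * (PP K n).real {x | Supp x S} ≤ C * (n * G (1 / n))

/-- EXT: supported sets extend to facets. -/
def S_EXT : Prop := ∀ (E : Type) [NormedAddCommGroup E] [NormedSpace ℝ E] [FiniteDimensional ℝ E]
  (n : ℕ) (x : Fin n → E), GP x → Module.finrank ℝ E + 1 ≤ n → ∀ S : Finset (Fin n),
  S.Nonempty → S.card ≤ Module.finrank ℝ E → Supp x S →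
  ∃ T : Finset (Fin n), S ⊆ T ∧ T.card = Module.finrank ℝ E ∧ Supp x T

/-- SUBF: subsets of supported sets are supported. -/
def S_SUBF : Prop := ∀ (E : Type) [NormedAddCommGroup E] [NormedSpace ℝ E] [FiniteDimensional ℝ E]
  (n : ℕ) (x : Fin n → E), GP x → ∀ S T : Finset (Fin n), S.card ≤ Module.finrank ℝ E + 1 →
  T ⊆ S → T.Nonempty → Supp x S → Supp x T

/-- FJS: faces and supported sets. -/
def S_FJS : Prop := ∀ (E : Type) [NormedAddCommGroup E] [NormedSpace ℝ E] [FiniteDimensional ℝ E]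
  (n : ℕ) (x : Fin n → E), GP x → Module.finrank ℝ E + 1 ≤ n → ∀ j : ℕ,
  j < Module.finrank ℝ E →
  fj j (hull x) = Set.ncard {S : Finset (Fin n) | S.card = j + 1 ∧ Supp x S}

/-- CNT: counting faces. -/
def S_CNT : Prop := ∀ (E : Type) [NormedAddCommGroup E] [NormedSpace ℝ E] [FiniteDimensional ℝ E]
  (n : ℕ) (x : Fin n → E), GP x → Module.finrank ℝ E + 1 ≤ n → ∀ j : ℕ,
  j < Module.finrank ℝ E →
  Set.ncard {S : Finset (Fin n) | S.card = j + 1 ∧ Supp x S} ≤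
    (Module.finrank ℝ E).choose (j + 1) *
      Set.ncard {S : Finset (Fin n) | S.card = Module.finrank ℝ E ∧ Supp x S} ∧
  Set.ncard {i : Fin n | Supp x {i}} ≤
    (j + 1) * Set.ncard {S : Finset (Fin n) | S.card = j + 1 ∧ Supp x S}

/-- EFB: order of the expected number of faces. -/
def S_EFB : Prop := ∀ (E : Type) [NormedAddCommGroup E] [NormedSpace ℝ E] [FiniteDimensional ℝ E]
  [MeasureSpace E] [BorelSpace E] [(volume : Measure E).IsAddHaarMeasure] (K : Set E), Body K →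
  1 ≤ Module.finrank ℝ E → ∀ G : ℝ → ℝ, GOK G →
  (∃ c : ℝ, 0 < c ∧ ∀ t : ℝ, 0 < t → c * G t ≤ Phi K t) →
  (∃ C : ℝ, 0 < C ∧ ∀ t : ℝ, 0 < t → Phi K t ≤ C * G t) →
  ∀ j : ℕ, j < Module.finrank ℝ E → ∃ c : ℝ, 0 < c ∧ ∃ C : ℝ, 0 < C ∧ ∀ n : ℕ,
    Module.finrank ℝ E + 1 ≤ n → Integrable (fun x => (fj j (hull x) : ℝ)) (PP K n) ∧
      c * (n * G (1 / n)) ≤ EF j K n ∧ EF j K n ≤ C * (n * G (1 / n))

/-- FIN: the final statement. -/
def S_FIN : Prop := ∀ (m : ℕ), 1 ≤ m → ∀ d : Fin m → ℕ, (∀ i, 1 ≤ d i) →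
  (∀ i, SmoothBody (Metric.closedBall (0 : EuclideanSpace ℝ (Fin (d i))) 1)) ∧
  ∀ K : (i : Fin m) → Set (EuclideanSpace ℝ (Fin (d i))), (∀ i, SmoothBody (K i)) →
  (∀ n, ∑ i, d i + 1 ≤ n → ∀ j, j < ∑ i, d i →
    Integrable (fun x => (fj j (hull x) : ℝ)) (PP (PB K) n)) ∧
  (∀ n, Integrable (fun x => volume.real (hull x)) (PP (PB K) n)) ∧
  (∀ j, j < ∑ i, d i → Asymp (EF j (PB K)) (EF j (ZB d))) ∧
  Asymp (vdef (PB K)) (vdef (ZB d))

end Pool.Agent.W133.RP
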